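import Pool.Agent.Q138.PS.YA
import Pool.Agent.Q138.PS.XZ

/-!
# The Gamma function at all elements of number fields whose denominator is close to a real multiple of a polynomial value

Let `y_1, …, y_p` be algebraic functions, holomorphic on the connected open set `Ω ⊂ ℂ`, not constant and with
`y_i ∉ ℚ y_k + ℚ` for `i ≠ k` (for instance `y_i(t) = a_i t + b_i`). The denominator of an algebraic number `t` is the least
positive integer `q` for which `q t` is an algebraic integer; for rational numbers this is the usual denominator.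

Let `s ≥ 1` be an integer and `l < 1`. There is a set `Z` of real numbers of Hausdorff dimension at most `1 / (s (1 - l))` such
that every real `α > 0` outside `Z` has the following property. For all number fields `K ⊂ ℂ`, all constants `ξ ∈ ℂ^g` from a given
countable set, all `d`, `A` and all compact `L ⊂ Ω` without poles of the `Γ(y_i)` there is `B` such that for all natural `R ≥ 1`, ALL
real polynomials `P` with algebraic coefficients, degree at least `s` and positive leading coefficient, all real `D` and all large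
`N`, for EVERY integer `q` with `|q - α P(N)| ≤ D (α P(N)) ^ l` and EVERY element `t` of `K ∩ L` with denominator `q`, all
conjugates of which are at most `R`: the numbers `Γ(y_1(t)), …, Γ(y_p(t))` satisfy no relation, not even an approximate one (up to
`(R q) ^ (-B)`), of degree at most `d` whose coefficients are polynomials of degree at most `d`, with coefficients in the integers
of `K` of size at most `(R q) ^ A`, in the values of given rational functions `u_i / w` at `t` and in the constants `ξ`.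
-/

set_option autoImplicit false

namespace Pool.Agent.Results.MP_26ad15_nt.DenominatorsNearMultiples

open Filter Pool.Agent.Q138.PS Pool.Agent.Q138.PS.GammaOne

/-- **Theorem.** -/
theorem result (p q : ℕ) (Ω : Set ℂ) (hΩ : IsOpen Ω) (hΩc : IsPreconnected Ω)
    (y : Fin p → ℂ → ℂ) (hy : ∀ i, DifferentiableOn ℂ (y i) Ω)
    (halg : ∀ i, ∃ Q : Polynomial (Polynomial ℂ), Q ≠ 0 ∧ ∀ t ∈ Ω, Q.evalEval t (y i t) = 0)
    (hnc : ∀ i, ∀ v : ℂ, ¬ ∀ t ∈ Ω, y i t = v)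
    (hH : ∀ i k, i ≠ k → ∀ a b : ℚ, ¬ ∀ t ∈ Ω, y i t = a * y k t + b)
    (u : Fin q → Polynomial ℂ) (w : Polynomial ℂ) (X : Set ℂ) (hX : X.Countable) (s : ℕ) (hs : 1 ≤ s) (l : ℝ) (hl : l < 1) :
    ∃ Z : Set ℝ, dimH Z ≤ ENNReal.ofReal (1 / s / (1 - l)) ∧ ∀ α : ℝ, 0 < α → α ∉ Z →
      ∀ (K : IntermediateField ℚ ℂ) [NumberField K] (g : ℕ) (ξ : Fin g → ℂ), (∀ i, ξ i ∈ X) → ∀ (d : ℕ) (A : ℝ),
      ∀ L : Set ℂ, IsCompact L → L ⊆ Ω → (∀ t ∈ L, ∀ (i : Fin p) (m : ℕ), y i t ≠ -m) → (∀ t ∈ L, w.eval t ≠ 0) →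
      ∃ B : ℝ, ∀ R : ℕ, 1 ≤ R → ∀ P : Polynomial ℝ, PolyOK s P → ∀ D : ℝ, ∀ᶠ N : ℕ in atTop,
        ∀ q : ℕ, 1 ≤ q → NearMul α (P.eval (N : ℝ)) D l q → ∀ t : K, den t = q → t ∉ Exc K d y u w ξ L A B (R * q) := by
  have hcN := countN
  have hcX := hX.to_subtype
  have key : ∀ (i : {K : IntermediateField ℚ ℂ // NumberField K} × (Σ g : ℕ, Fin g → X) × ℕ × ℕ × ℕ) (k : ℕ),
      haveI := i.1.2; ∃ B C T₀ T₁ : ℝ, (∀ T : ℝ, T₀ ≤ T →
        (Exc i.1.1 i.2.2.1 y u w (fun a => (i.2.1.2 a : ℂ)) (inner (Good Ω y w) i.2.2.2.2) (max (i.2.2.2.1 : ℝ) 0) B T).Finite ∧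
        ((Exc i.1.1 i.2.2.1 y u w (fun a => (i.2.1.2 a : ℂ)) (inner (Good Ω y w) i.2.2.2.2) (max (i.2.2.2.1 : ℝ) 0)
          B T).ncard : ℝ) ≤ C * T ^ (1 / ((k : ℝ) + 1))) ∧
      ∀ T T' : ℝ, T₁ ≤ T → T ≤ T' → T' ≤ 2 * T →
        Exc i.1.1 i.2.2.1 y u w (fun a => (i.2.1.2 a : ℂ)) (inner (Good Ω y w) i.2.2.2.2) (i.2.2.2.1 : ℝ) (max B 0 + 1) T ⊆
          Exc i.1.1 i.2.2.1 y u w (fun a => (i.2.1.2 a : ℂ)) (inner (Good Ω y w) i.2.2.2.2) (max (i.2.2.2.1 : ℝ) 0) B T' := by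
    rintro ⟨⟨K, hK⟩, ⟨g, ξ⟩, d, A, r⟩ k
    exact few p q Ω hΩ hΩc y hy halg hnc hH u w K (fun a => (ξ a : ℂ)) d A r k
  choose B C T₀ T₁ hbd using key
  obtain ⟨Z, hZ, hz⟩ := mul_den (ι := {K : IntermediateField ℚ ℂ // NumberField K} × (Σ g : ℕ, Fin g → X) × ℕ × ℕ × ℕ)
    (F := fun i => i.1.1)
    (fun i k T => haveI := i.1.2; Exc i.1.1 i.2.2.1 y u w (fun a => (i.2.1.2 a : ℂ)) (inner (Good Ω y w) i.2.2.2.2)
      (i.2.2.2.1 : ℝ) (max (B i k) 0 + 1) T)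
    (fun i k T => haveI := i.1.2; Exc i.1.1 i.2.2.1 y u w (fun a => (i.2.1.2 a : ℂ)) (inner (Good Ω y w) i.2.2.2.2)
      (max (i.2.2.2.1 : ℝ) 0) (B i k) T) l s hs hl (fun i k => ⟨C i k, T₀ i k, T₁ i k, (hbd i k).1, (hbd i k).2⟩)
  refine ⟨Z, hZ, fun α hα hαZ K hK g ξ hξ d A L hL hLΩ hLp hLw => ?_⟩
  obtain ⟨r, hr⟩ := compact_inner (good_open hΩ hy w) hL (fun t ht => (⟨hLΩ ht, fun i => inv_ne_zero
    (Complex.Gamma_ne_zero fun m => hLp t ht i m), hLw t ht⟩ : t ∈ Good Ω y w))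
  obtain ⟨k, hk⟩ := hz α hα hαZ (⟨K, hK⟩, ⟨g, fun i => ⟨ξ i, hξ i⟩⟩, d, ⌈A⌉₊, r)
  refine ⟨max (B (⟨K, hK⟩, ⟨g, fun i => ⟨ξ i, hξ i⟩⟩, d, ⌈A⌉₊, r) k) 0 + 1, fun R hR P hP D => ?_⟩
  filter_upwards [hk R hR P hP D] with N hN q' hq' hnear t ht htE
  have hRq : (1 : ℝ) ≤ R * q' := by exact_mod_cast Nat.mul_pos hR hq'
  exact hN q' hq' hnear t ht (mono2 K ξ hRq (Nat.le_ceil A) hr htE)

end Pool.Agent.Results.MP_26ad15_nt.DenominatorsNearMultiples
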