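import Pool.Agent.Q138.PS.WG
import Pool.Agent.Q138.AJ.R26ad15g

/-!
# Values of the Gamma function at the points of algebraic curves with parameters close to given complex numbers

Let `z_ji = y_ji(t_j)`, `i < p`, `j < n`, where the `y_ji` are algebraic functions of `t_j ∈ Ω_j` such that for each `j` no `y_ji` is
constant or in `ℚ y_jk + ℚ`, `k ≠ i` (for instance `y_ji(t) = α_ji t + γ_ji`). An `n`-tuple `t` of elements of a number field
`k ⊂ ℂ`, of height at most `T`, is exceptional (for `g`, `ξ ∈ ℂ^g`, `d`, `A` and `B`) if the numbers `Γ(y_ji(t_j))` satisfy an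
approximate relation (`≤ T ^ (-B)`) of degree at most `d` whose coefficients are polynomials of degree at most `d`, with
coefficients in the integers of `k` of size at most `T ^ A`, in the values of given rational functions `u_jk / w_j` at the `t_j` and
in the constants `ξ`. We show that only the points `z` of a small set have exceptional tuples among their good approximations.

* For compact `L_j ⊂ Ω_j` without poles, a bound `m` for the degree of the field, `g`, `d`, `A` and `ε > 0` there is `B` such that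
  for all `θ > 0`: outside a set of `z ∈ ℂ^n` of Hausdorff dimension at most `(2 m (n - 1) + ε) / θ`, for all number fields
  `k ⊂ ℂ` of degree at most `m`, all `ξ` from a given countable set and all large `T`, NO exceptional tuple of `k`, of height at
  most `T` and with `t_j ∈ L_j`, satisfies `|t_j - z_j| ≤ T ^ (-θ)` for all `j`. For `n = 1` the dimension is at most `ε / θ`.
* Outside a set of Hausdorff dimension ZERO every `z` with `z_j ∈ Ω_j`, where `w_j(z_j) ≠ 0` and no `y_ji(z_j)` is a pole of `Γ`,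
  has the property that for all number fields `k ⊂ ℂ`, all `g` and `ξ` from the countable set, all `d` and `A` there are `B` and
  `θ` such that for all large `T` no exceptional tuple of `k` of height at most `T` satisfies `|t_j - z_j| ≤ T ^ (-θ)` for all `j`.
-/

set_option autoImplicit false

namespace Pool.Agent.Results.MP_26ad15_nt.GammaNearGivenPoints

open Filter Pool.Agent.Q138.PS Pool.Agent.Q138.AJ.R26ad15g

theorem mono {n p q g d : ℕ} {y : Fin n → Fin p → ℂ → ℂ} {u : Fin n → Fin q → Polynomial ℂ} {w : Fin n → Polynomial ℂ}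
    {F : Type} [Field F] [NumberField F] (ι : F →+* ℂ) (ξ : Fin g → ℂ)
    {L : Fin n → Set ℂ} {A B T T' : ℝ} (h1 : max 1 (2 ^ max B 0) ≤ T) (h2 : T ≤ T') (h3 : T' ≤ 2 * T) :
    Exceptional F ι d y u w ξ L A (max B 0 + 1) T ⊆ Exceptional F ι d y u w ξ L (max A 0) B T' := by
  have h4 : 1 ≤ T := (le_max_left _ _).trans h1
  rintro x ⟨hx, P, hP, hP', hc, e₀, hs, hv⟩
  refine ⟨fun j => ⟨(hx j).1, ?_⟩, P, hP, hP', fun e s φ => (hc e s φ).trans (num_coeff h4 h2), e₀, hs, hv.trans ?_⟩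
  · obtain ⟨a, b, hb, hab, he⟩ := (hx j).2
    exact ⟨a, b, hb, fun φ => ⟨(hab φ).1.trans h2, (hab φ).2.trans h2⟩, he⟩
  · exact mul_le_mul_of_nonneg_right (num_value h4 ((le_max_right _ _).trans h1) h2 h3) (norm_nonneg _)

/-- the good parameters -/
def Good {p : ℕ} (Ω : Set ℂ) (y : Fin p → ℂ → ℂ) (w : Polynomial ℂ) : Set ℂ :=
  {t | t ∈ Ω ∧ (∀ i, (Complex.Gamma (y i t))⁻¹ ≠ 0) ∧ w.eval t ≠ 0}

theorem good_open {p : ℕ} {Ω : Set ℂ} (hΩ : IsOpen Ω) {y : Fin p → ℂ → ℂ} (hy : ∀ i, DifferentiableOn ℂ (y i) Ω)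
    (w : Polynomial ℂ) : IsOpen (Good Ω y w) := by
  have h1 : ∀ i, IsOpen {t | t ∈ Ω ∧ (Complex.Gamma (y i t))⁻¹ ≠ 0} := by
    intro i
    have h2 : ContinuousOn (fun t => (Complex.Gamma (y i t))⁻¹) Ω :=
      (Complex.differentiable_one_div_Gamma.continuous).comp_continuousOn (hy i).continuousOn
    exact h2.isOpen_inter_preimage hΩ isOpen_ne
  have e : Good Ω y w = (Ω ∩ {t | w.eval t ≠ 0}) ∩ ⋂ i, ({t | t ∈ Ω ∧ (Complex.Gamma (y i t))⁻¹ ≠ 0}) := by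
    ext t
    simp only [Good, Set.mem_setOf_eq, Set.mem_inter_iff, Set.mem_iInter]
    constructor
    · rintro ⟨a, b, c⟩
      exact ⟨⟨a, c⟩, fun i => ⟨a, b i⟩⟩
    · rintro ⟨⟨a, c⟩, b⟩
      exact ⟨a, fun i => (b i).2, c⟩
  rw [e]
  exact (hΩ.inter (isOpen_ne_fun w.continuous continuous_const)).inter (isOpen_iInter_of_finite h1)

/-- **Theorem.** -/
theorem result (n p q : ℕ) (Ω : Fin n → Set ℂ) (hΩ : ∀ j, IsOpen (Ω j)) (hΩc : ∀ j, IsPreconnected (Ω j))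
    (y : Fin n → Fin p → ℂ → ℂ) (hy : ∀ j i, DifferentiableOn ℂ (y j i) (Ω j))
    (halg : ∀ j i, ∃ Q : Polynomial (Polynomial ℂ), Q ≠ 0 ∧ ∀ t ∈ Ω j, Q.evalEval t (y j i t) = 0)
    (hnc : ∀ j i, ∀ v : ℂ, ¬ ∀ t ∈ Ω j, y j i t = v)
    (hH : ∀ j i k, i ≠ k → ∀ a b : ℚ, ¬ ∀ t ∈ Ω j, y j i t = a * y j k t + b)
    (u : Fin n → Fin q → Polynomial ℂ) (w : Fin n → Polynomial ℂ) (X : Set ℂ) (hX : X.Countable) :
    (∀ (L : Fin n → Set ℂ), (∀ j, IsCompact (L j)) → (∀ j, L j ⊆ Ω j) → (∀ j, ∀ t ∈ L j, ∀ i, ∀ l : ℕ, y j i t ≠ -l) →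
      (∀ j, ∀ t ∈ L j, (w j).eval t ≠ 0) → ∀ (m g d : ℕ) (A ε : ℝ), 0 < ε → ∃ B : ℝ, ∀ θ : ℝ, 0 < θ →
      ∃ Z : Set (Fin n → ℂ), dimH Z ≤ ENNReal.ofReal ((2 * m * (n - 1 : ℕ) + ε) / θ) ∧
      ∀ z, z ∉ Z → ∀ (k : IntermediateField ℚ ℂ) [NumberField k], Module.finrank ℚ k ≤ m →
        ∀ ξ : Fin g → ℂ, (∀ i, ξ i ∈ X) → ∀ᶠ T : ℝ in atTop,
          ∀ t ∈ Exceptional k (algebraMap k ℂ) d y u w ξ L A B T, ∃ j, T ^ (-θ) < ‖((t j : k) : ℂ) - z j‖) ∧
    ∃ Z : Set (Fin n → ℂ), dimH Z = 0 ∧ ∀ z, z ∉ Z → (∀ j, z j ∈ Ω j) → (∀ j i, ∀ l : ℕ, y j i (z j) ≠ -l) →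
      (∀ j, (w j).eval (z j) ≠ 0) →
      ∀ (k : IntermediateField ℚ ℂ) [NumberField k] (g : ℕ) (ξ : Fin g → ℂ), (∀ i, ξ i ∈ X) → ∀ (d : ℕ) (A : ℝ),
        ∃ B θ : ℝ, 0 < θ ∧ ∀ᶠ T : ℝ in atTop,
          ∀ t ∈ Exceptional k (algebraMap k ℂ) d y u w ξ (fun _ => Set.univ) A B T,
            ∃ j, T ^ (-θ) < ‖((t j : k) : ℂ) - z j‖ := by
  constructor
  · intro L hL hLΩ hLp hw m g d A ε hε
    obtain ⟨B, C, T₀, hbd⟩ := Pool.Agent.Q138.AJ.R26ad15g.result m n p q g d Ω hΩ hΩc y hy halg hnc hH L hL hLΩ hLp u w hw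
      (max A 0) ε hε
    refine ⟨max B 0 + 1, fun θ hθ => ?_⟩
    exact near_all (Ξ := Fin g → ℂ) {ξ | ∀ i, ξ i ∈ X} (Set.countable_pi fun _ => hX)
      (fun F _ _ ι ξ T => Exceptional F ι d y u w ξ L A (max B 0 + 1) T)
      (fun F _ _ ι ξ T => Exceptional F ι d y u w ξ L (max A 0) B T) (fun F _ _ ι T => Points F ι (⋃ j, L j) T)
      (fun F _ _ ι T x hx => hx.2) C T₀ (max 1 (2 ^ max B 0)) ε θ hε hθ (fun F _ _ hF ι ξ T hT => hbd F hF ι ξ T hT)
      fun F _ _ ι ξ T T' h1 h2 h3 => mono ι ξ h1 h2 h3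
  · have hcN := countN
    have hcX := hX.to_subtype
    let J : Type := {K : IntermediateField ℚ ℂ // NumberField K} × (Σ g : ℕ, Fin g → X) × ℕ × ℕ
    have hGo : ∀ j, IsOpen (Good (Ω j) (y j) (w j)) := fun j => good_open (hΩ j) (hy j) (w j)
    obtain ⟨Z, hZ, hz⟩ := near_open (fun j : Fin n => Good (Ω j) (y j) (w j)) hGo (J := J) (fun i => i.1.1)
      (fun i => algebraMap i.1.1 ℂ) (fun i B T => haveI := i.1.2
        Exceptional i.1.1 (algebraMap i.1.1 ℂ) i.2.2.1 y u w (fun l => (i.2.1.2 l : ℂ)) (fun _ => Set.univ)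
          (i.2.2.2 : ℝ) B T) (by
        rintro ⟨⟨K, hK⟩, ⟨g, ξ⟩, d, A⟩ k
        obtain ⟨B, C, T₀, hbd⟩ := Pool.Agent.Q138.AJ.R26ad15g.result (Module.finrank ℚ K) n p q g d Ω hΩ hΩc y hy halg hnc hH
          (fun j => inner (Good (Ω j) (y j) (w j)) k) (fun j => inner_compact _ k)
          (fun j t ht => (inner_sub _ k ht).1) (fun j t ht i l h => by
            refine (inner_sub _ k ht).2.1 i ?_
            rw [(Complex.Gamma_eq_zero_iff _).2 ⟨l, h⟩, inv_zero]) u w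
          (fun j t ht => (inner_sub _ k ht).2.2) (max (A : ℝ) 0) 1 one_pos
        obtain ⟨c, hc⟩ := dimH_theta K (algebraMap K ℂ) (fun T => {s | s ∈ Exceptional K (algebraMap K ℂ) d y u w
            (fun l => (ξ l : ℂ)) (fun _ => Set.univ) (A : ℝ) (max B 0 + 1) T ∧
            ∀ j, algebraMap K ℂ (s j) ∈ inner (Good (Ω j) (y j) (w j)) k})
          (fun T => Exceptional K (algebraMap K ℂ) d y u w (fun l => (ξ l : ℂ))
            (fun j => inner (Good (Ω j) (y j) (w j)) k) (max (A : ℝ) 0) B T)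
          (fun T => Points K (algebraMap K ℂ) (⋃ j, inner (Good (Ω j) (y j) (w j)) k) T) (fun T x hx => hx.2) C T₀
          (max 1 (2 ^ max B 0)) (fun T hT => hbd K le_rfl _ _ T hT) (by
            intro T T' h1 h2 h3 t ht
            refine mono _ _ h1 h2 h3 ⟨fun j => ⟨ht.2 j, (ht.1.1 j).2⟩, ht.1.2⟩)
        exact ⟨max B 0 + 1, c, hc⟩)
    refine ⟨Z, hZ, fun z hzZ hzΩ hzp hzw K hK g ξ hξ d A => ?_⟩
    obtain ⟨B, θ, hθ, hbd⟩ := hz z hzZ (fun j => ⟨hzΩ j, fun i => inv_ne_zero (Complex.Gamma_ne_zero fun l => hzp j i l),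
      hzw j⟩) (⟨K, hK⟩, ⟨g, fun i => ⟨ξ i, hξ i⟩⟩, d, ⌈A⌉₊)
    refine ⟨B, θ, hθ, ?_⟩
    filter_upwards [hbd, eventually_ge_atTop 1] with T hT hT1
    intro t ht
    refine hT t ?_
    obtain ⟨hp, P, hP, hP', hc, hs⟩ := ht
    exact ⟨hp, P, hP, hP', fun e s φ => (hc e s φ).trans (Real.rpow_le_rpow_of_exponent_le hT1 (Nat.le_ceil A)), hs⟩

end Pool.Agent.Results.MP_26ad15_nt.GammaNearGivenPoints
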