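import Pool.Agent.Q95.GamClass

/-!
# The Schanuel-type conjecture for the Gamma function holds for `n ≤ 2` in all classes `ℚ z_i + ℚ`
-/

set_option autoImplicit false

namespace Pool.Agent.Results.MP_26ad15_nt.OneAndTwoClasses

open Complex IntermediateField Q95.GC

/-- The field `ℚ(z_1, …, z_n, Γ(z_1), …, Γ(z_n))`. -/
noncomputable def gammaField {n : ℕ} (z : Fin n → ℂ) : IntermediateField ℚ ℂ :=
  adjoin ℚ (Set.range z ∪ Set.range fun i => Gamma (z i))

/-- The inequality of the conjecture for the tuple `z`. -/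
def Inequality {n : ℕ} (z : Fin n → ℂ) : Prop :=
  (n : Cardinal) ≤ Algebra.trdeg ℚ (gammaField z)

/-- `a ∈ {1, 2, 3, 4, 5, 7}` and `b` is a fraction in `[0, 1)` with a denominator at most `7`. -/
def Listed (a : ℕ) (b : ℚ) : Prop :=
  a ∈ ({1, 2, 3, 4, 5, 7} : Finset ℕ) ∧ ∃ k m : ℕ, k < m ∧ m ≤ 7 ∧ b = k / m

lemma mem_arg {n : ℕ} (z : Fin n → ℂ) (i : Fin n) : z i ∈ gammaField z :=
  subset_adjoin ℚ _ (Or.inl ⟨i, rfl⟩)

lemma mem_gam {n : ℕ} (z : Fin n → ℂ) (i : Fin n) : Gamma (z i) ∈ gammaField z :=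
  subset_adjoin ℚ _ (Or.inr ⟨i, rfl⟩)

lemma Listed.pos {a : ℕ} {b : ℚ} (h : Listed a b) : (a : ℂ) ≠ 0 := by
  obtain ⟨h, -⟩ := h
  have : a ≠ 0 := by
    rintro rfl
    simp at h
  exact_mod_cast this

lemma mem_base {n : ℕ} (z : Fin n → ℂ) (a : Fin n → ℕ) (b : Fin n → ℚ) (i : Fin n)
    (h : (a i : ℂ) ≠ 0) : z i ∈ gammaField (fun i => a i * z i + b i) := by
  have h1 := mem_arg (fun i => (a i : ℂ) * z i + b i) i
  have h2 : (b i : ℂ) ∈ gammaField (fun i => (a i : ℂ) * z i + b i) := by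
    have := (gammaField (fun i => (a i : ℂ) * z i + b i)).algebraMap_mem (b i)
    simpa using this
  have h3 : (a i : ℂ) ∈ gammaField (fun i => (a i : ℂ) * z i + b i) := _root_.natCast_mem _ _
  have h4 := div_mem (sub_mem h1 h2) h3
  simp only [add_sub_cancel_right] at h4
  rwa [mul_div_cancel_left₀ _ h] at h4

lemma listed_one {k m : ℕ} (hk : k < m) (hm : m ∈ ({2, 3, 4, 5, 7} : Finset ℕ)) :
    Listed 1 (k / m) := by
  refine ⟨by simp, k, m, hk, ?_, rfl⟩
  fin_cases hm <;> norm_num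

lemma listed_mul {m : ℕ} (hm : m ∈ ({2, 3, 4, 5, 7} : Finset ℕ)) : Listed m 0 := by
  refine ⟨?_, 0, 1, by norm_num, by norm_num, by simp⟩
  fin_cases hm <;> simp

/-- from the listed values to the values used in the multiplication formulas -/
lemma cover {F : IntermediateField ℚ ℂ} {z : ℂ}
    (h : ∀ (a : ℕ) (b : ℚ), Listed a b → IsAlgebraic F (Gamma (a * z + b))) :
    ∀ m ∈ ({2, 3, 4, 5, 7} : Finset ℕ), (∀ k < m, IsAlgebraic F (Gamma (z + k / m))) ∧
      IsAlgebraic F (Gamma (m * z)) := by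
  intro m hm
  refine ⟨fun k hk => ?_, ?_⟩
  · have := h 1 (k / m) (listed_one hk hm)
    simpa using this
  · have := h m 0 (listed_mul hm)
    simpa using this

lemma exists_listed {z : ℂ} (hz : ∀ q : ℚ, z ≠ q) (hal : IsAlgebraic ℚ z) :
    ∃ (a : ℕ) (b : ℚ), Listed a b ∧ Transcendental ℚ (Gamma (a * z + b)) := by
  rcases exists_tr hz hal with ⟨m, hm, k, hk, h⟩ | ⟨m, hm, h⟩
  · exact ⟨1, k / m, listed_one hk hm, by simpa using h⟩
  · exact ⟨m, 0, listed_mul hm, by simpa using h⟩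

lemma one_le_of_mem {K : IntermediateField ℚ ℂ} {x : ℂ} (hx : x ∈ K) (ht : Transcendental ℚ x) :
    1 ≤ Algebra.trdeg ℚ K := by
  have h1 : AlgebraicIndependent ℚ (fun _ : Unit => (⟨x, hx⟩ : K)) := by
    rw [algebraicIndependent_unique_type_iff]
    intro h
    exact ht (h.algebraMap (A := ℂ))
  have := h1.cardinalMk_le_trdeg
  simpa using this

/-- **Theorem.** Let `n ≤ 2` and let `z_1, …, z_n` be irrational complex numbers with
`z_i ∉ ℚ z_j + ℚ` for `i ≠ j`. Then there are `a_i ∈ {1, 2, 3, 4, 5, 7}` and fractions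
`b_i ∈ [0, 1)` with denominators at most `7` such that the conjecture holds for the numbers
`a_i z_i + b_i`: `trdeg ℚ(a_i z_i + b_i, Γ(a_i z_i + b_i)) ≥ n`. -/
theorem result (n : ℕ) (hn : n ≤ 2) (z : Fin n → ℂ) (hirr : ∀ (i : Fin n) (q : ℚ), z i ≠ q)
    (hH : ∀ i j : Fin n, i ≠ j → ∀ p q : ℚ, z i ≠ p * z j + q) :
    ∃ (a : Fin n → ℕ) (b : Fin n → ℚ), (∀ i, Listed (a i) (b i)) ∧
      Inequality (fun i => a i * z i + b i) := by
  have l10 : Listed 1 0 := ⟨by simp, 0, 1, by norm_num, by norm_num, by simp⟩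
  interval_cases n
  · exact ⟨fun i => i.elim0, fun i => i.elim0, fun i => i.elim0, by simp [Inequality]⟩
  · -- one class
    by_cases hal : IsAlgebraic ℚ (z 0)
    · obtain ⟨a, b, hab, ht⟩ := exists_listed (hirr 0) hal
      refine ⟨fun _ => a, fun _ => b, fun _ => hab, ?_⟩
      have := one_le_of_mem (mem_gam (fun i : Fin 1 => (a : ℂ) * z i + b) 0) ht
      simpa [Inequality] using this
    · refine ⟨fun _ => 1, fun _ => 0, fun _ => l10, ?_⟩
      have := one_le_of_mem (mem_base z (fun _ => 1) (fun _ => 0) 0 (by simp)) hal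
      simpa [Inequality] using this
  · -- two classes
    by_contra hcon
    push Not at hcon
    have key : ∀ (a₀ a₁ : ℕ) (b₀ b₁ : ℚ), Listed a₀ b₀ → Listed a₁ b₁ →
        ∃ K : IntermediateField ℚ ℂ, Algebra.trdeg ℚ K ≤ 1 ∧ z 0 ∈ K ∧ z 1 ∈ K ∧
          Gamma (a₀ * z 0 + b₀) ∈ K ∧ Gamma (a₁ * z 1 + b₁) ∈ K := by
      intro a₀ a₁ b₀ b₁ h0 h1
      have h2 := hcon ![a₀, a₁] ![b₀, b₁] (by
        intro i
        fin_cases i
        · exact h0
        · exact h1)
      refine ⟨gammaField (fun i => (![a₀, a₁] i : ℂ) * z i + ![b₀, b₁] i), ?_, ?_, ?_, ?_, ?_⟩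
      · unfold Inequality at h2
        rw [not_le] at h2
        have h3 : Algebra.trdeg ℚ (gammaField (fun i => ((![a₀, a₁] : Fin 2 → ℕ) i : ℂ) * z i +
            ((![b₀, b₁] : Fin 2 → ℚ) i : ℂ))) < 2 := by
          exact_mod_cast h2
        obtain ⟨c, hc⟩ := Cardinal.lt_aleph0.mp (h3.trans Cardinal.natCast_lt_aleph0)
        rw [hc] at h3
        have h4 : c < 2 := by exact_mod_cast h3
        have h5 : c ≤ 1 := by omega
        refine hc.le.trans ?_
        exact_mod_cast h5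
      · exact mem_base z ![a₀, a₁] ![b₀, b₁] 0 h0.pos
      · exact mem_base z ![a₀, a₁] ![b₀, b₁] 1 h1.pos
      · exact mem_gam (fun i => ((![a₀, a₁] : Fin 2 → ℕ) i : ℂ) * z i +
            ((![b₀, b₁] : Fin 2 → ℚ) i : ℂ)) 0
      · exact mem_gam (fun i => ((![a₀, a₁] : Fin 2 → ℕ) i : ℂ) * z i +
            ((![b₀, b₁] : Fin 2 → ℚ) i : ℂ)) 1
    have hH01 := hH 0 1 (by norm_num)
    have hext : ∀ (F : IntermediateField ℚ ℂ) (x : ℂ), IsAlgebraic ℚ x → IsAlgebraic F x :=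
      fun F x hx => hx.extendScalars (algebraMap ℚ _).injective
    by_cases hal0 : IsAlgebraic ℚ (z 0)
    · by_cases hal1 : IsAlgebraic ℚ (z 1)
      · -- both numbers are algebraic
        obtain ⟨a₀, b₀, l0, t0⟩ := exists_listed (hirr 0) hal0
        obtain ⟨a₁, b₁, l1, t1⟩ := exists_listed (hirr 1) hal1
        have h1 : ∀ (a : ℕ) (b : ℚ), Listed a b →
            IsAlgebraic (adjoin ℚ {Gamma (a₀ * z 0 + b₀)}) (Gamma (a * z 1 + b)) := by
          intro a b hab
          obtain ⟨K, hK, -, -, m1, m2⟩ := key a₀ a b₀ b l0 hab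
          exact al_of_trdeg K hK m1 t0 m2
        have h0 : ∀ (a : ℕ) (b : ℚ), Listed a b →
            IsAlgebraic (adjoin ℚ {Gamma (a₀ * z 0 + b₀)}) (Gamma (a * z 0 + b)) := by
          intro a b hab
          obtain ⟨K, hK, -, -, m1, m2⟩ := key a a₁ b b₁ hab l1
          exact al_trans2 (h1 a₁ b₁ l1) (al_of_trdeg K hK m2 t1 m1)
        exact two_classes t0 (hirr 0) (hirr 1) hH01 (hext _ _ hal0) (hext _ _ hal1)
          (cover h0) (cover h1)
      · -- the second number is transcendental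
        obtain ⟨K, hK, m1, m2, -, -⟩ := key 1 1 0 0 l10 l10
        refine two_classes (θ := z 1) hal1 (hirr 0) (hirr 1) hH01
          (al_of_trdeg K hK m2 hal1 m1) (al_of_trdeg K hK m2 hal1 m2) (cover ?_) (cover ?_)
        · intro a b hab
          obtain ⟨K, hK, m1, m2, m3, m4⟩ := key a 1 b 0 hab l10
          exact al_of_trdeg K hK m2 hal1 m3
        · intro a b hab
          obtain ⟨K, hK, m1, m2, m3, m4⟩ := key 1 a 0 b l10 hab
          exact al_of_trdeg K hK m2 hal1 m4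
    · -- the first number is transcendental
      obtain ⟨K, hK, m1, m2, -, -⟩ := key 1 1 0 0 l10 l10
      refine two_classes (θ := z 0) hal0 (hirr 0) (hirr 1) hH01
        (al_of_trdeg K hK m1 hal0 m1) (al_of_trdeg K hK m1 hal0 m2) (cover ?_) (cover ?_)
      · intro a b hab
        obtain ⟨K, hK, m1, m2, m3, m4⟩ := key a 1 b 0 hab l10
        exact al_of_trdeg K hK m1 hal0 m3
      · intro a b hab
        obtain ⟨K, hK, m1, m2, m3, m4⟩ := key 1 a 0 b l10 hab
        exact al_of_trdeg K hK m1 hal0 m4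

end Pool.Agent.Results.MP_26ad15_nt.OneAndTwoClasses
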